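import Pool.Agent.P.MP_e983f0_al.Chars

set_option autoImplicit false

namespace Pool.Agent.Results.MP_e983f0_al.ChiefLengthCounterexample

open Pool.Agent.P.MP_e983f0_al

/-- There is a finite group (of order 512) with a chief series of length 9 in which at most 8
irreducible complex characters share any one field of values. -/
theorem result : ∃ (Γ : Type) (_ : Group Γ) (_ : Finite Γ), Nat.card Γ = 512 ∧
    ∃ (r : ℕ) (N : Fin (r + 1) → Subgroup Γ),
      r = 9 ∧ IsChiefSeries r N ∧ fieldMult Γ < (r : ℕ∞) := by
  refine ⟨G, inferInstance, inferInstance, by rw [Nat.card_eq_fintype_card, card_G], 9, chain,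
    rfl, chain_chief, fieldMult_le.trans_lt ?_⟩
  norm_num

end Pool.Agent.Results.MP_e983f0_al.ChiefLengthCounterexample
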